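import Mathlib

set_option autoImplicit false
set_option linter.unusedSectionVars false

/-!
# The compact symplectic group as complex matrices

`Sp(ι)` is the set of unitary matrices `A` over `ι ⊕ ι` with `Aᵀ J A = J`.
The antilinear map `sg v = Jᵀ v̄` commutes with the elements of `Sp(ι)`.
-/

namespace Q54.SpI

open Matrix

variable {ι : Type} [Fintype ι] [DecidableEq ι]

/-- the standard skew form -/
def J (ι : Type) [DecidableEq ι] : Matrix (ι ⊕ ι) (ι ⊕ ι) ℂ :=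
  fromBlocks 0 1 (-1) 0

/-- the compact symplectic group -/
def IsSp (A : Matrix (ι ⊕ ι) (ι ⊕ ι) ℂ) : Prop :=
  A ∈ unitaryGroup (ι ⊕ ι) ℂ ∧ Aᵀ * J ι * A = J ι

/-- involutions of the compact symplectic group -/
def IsInv (X : Matrix (ι ⊕ ι) (ι ⊕ ι) ℂ) : Prop := IsSp X ∧ X * X = 1

theorem J_transpose : (J ι)ᵀ = - J ι := by
  simp [J, fromBlocks_transpose, fromBlocks_neg]

theorem J_sq : J ι * J ι = -1 := by
  simp [J, fromBlocks_multiply, ← fromBlocks_one, fromBlocks_neg]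

theorem J_conj : (J ι).map star = J ι := by
  ext a b
  rcases a with a | a <;> rcases b with b | b <;> simp [J, Matrix.one_apply, apply_ite]

theorem J_conjT : (J ι)ᴴ = - J ι := by
  rw [conjTranspose, J_transpose]
  ext a b
  have := congrFun (congrFun (J_conj (ι := ι)) a) b
  simpa using this

theorem one_sp : IsSp (1 : Matrix (ι ⊕ ι) (ι ⊕ ι) ℂ) :=
  ⟨one_mem _, by simp⟩

theorem IsSp.mul {A B : Matrix (ι ⊕ ι) (ι ⊕ ι) ℂ} (hA : IsSp A) (hB : IsSp B) :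
    IsSp (A * B) := by
  refine ⟨mul_mem hA.1 hB.1, ?_⟩
  calc (A * B)ᵀ * J ι * (A * B) = Bᵀ * (Aᵀ * J ι * A) * B := by
        rw [transpose_mul]; simp only [Matrix.mul_assoc]
    _ = J ι := by rw [hA.2, hB.2]

theorem IsSp.star_mul {A : Matrix (ι ⊕ ι) (ι ⊕ ι) ℂ} (hA : IsSp A) : Aᴴ * A = 1 :=
  (mem_unitaryGroup_iff').1 hA.1

theorem IsSp.mul_star {A : Matrix (ι ⊕ ι) (ι ⊕ ι) ℂ} (hA : IsSp A) : A * Aᴴ = 1 :=
  (mem_unitaryGroup_iff).1 hA.1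

theorem IsSp.star {A : Matrix (ι ⊕ ι) (ι ⊕ ι) ℂ} (hA : IsSp A) : IsSp Aᴴ := by
  refine ⟨mem_unitaryGroup_iff.2 (by
    rw [← star_eq_conjTranspose, star_star, star_eq_conjTranspose]; exact hA.star_mul), ?_⟩
  calc Aᴴᵀ * J ι * Aᴴ = Aᴴᵀ * (Aᵀ * J ι * A) * Aᴴ := by rw [hA.2]
    _ = (A * Aᴴ)ᵀ * J ι * (A * Aᴴ) := by
        rw [transpose_mul]; simp only [Matrix.mul_assoc]
    _ = J ι := by rw [hA.mul_star]; simp

theorem IsSp.conj_J {A : Matrix (ι ⊕ ι) (ι ⊕ ι) ℂ} (hA : IsSp A) :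
    Aᴴᵀ * J ι = J ι * A := by
  calc Aᴴᵀ * J ι = Aᴴᵀ * J ι * (Aᴴ * A) := by rw [hA.star_mul, Matrix.mul_one]
    _ = (Aᴴᵀ * J ι * Aᴴ) * A := by simp only [Matrix.mul_assoc]
    _ = J ι * A := by rw [hA.star.2]

theorem IsSp.comm_J {A : Matrix (ι ⊕ ι) (ι ⊕ ι) ℂ} (hA : IsSp A) :
    A * J ι = J ι * Aᴴᵀ := by
  have h := hA.conj_J
  have h1 : J ι * (Aᴴᵀ * J ι) * J ι = J ι * (J ι * A) * J ι := by rw [h]
  have h2 : J ι * (Aᴴᵀ * J ι) * J ι = - (J ι * Aᴴᵀ) := by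
    rw [Matrix.mul_assoc, Matrix.mul_assoc Aᴴᵀ, J_sq, Matrix.mul_neg, Matrix.mul_one,
      Matrix.mul_neg]
  have h3 : J ι * (J ι * A) * J ι = - (A * J ι) := by
    rw [← Matrix.mul_assoc, J_sq, Matrix.neg_mul, Matrix.one_mul, Matrix.neg_mul]
  rw [h2, h3] at h1
  exact (neg_injective h1).symm

/-- the inner product -/
def ip (u w : ι ⊕ ι → ℂ) : ℂ := star u ⬝ᵥ w

/-- the quaternionic structure -/
def sg (v : ι ⊕ ι → ℂ) : ι ⊕ ι → ℂ := (J ι)ᵀ *ᵥ star v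

theorem ip_add (u w w' : ι ⊕ ι → ℂ) : ip u (w + w') = ip u w + ip u w' := by
  simp [ip, dotProduct_add]

theorem ip_sub (u w w' : ι ⊕ ι → ℂ) : ip u (w - w') = ip u w - ip u w' := by
  simp [ip, dotProduct_sub]

theorem ip_smul (c : ℂ) (u w : ι ⊕ ι → ℂ) : ip u (c • w) = c * ip u w := by
  simp [ip, dotProduct_smul]

theorem add_ip (u u' w : ι ⊕ ι → ℂ) : ip (u + u') w = ip u w + ip u' w := by
  simp [ip, add_dotProduct]

theorem sub_ip (u u' w : ι ⊕ ι → ℂ) : ip (u - u') w = ip u w - ip u' w := by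
  simp [ip, sub_dotProduct]

theorem neg_ip (u w : ι ⊕ ι → ℂ) : ip (-u) w = - ip u w := by
  simp [ip]

theorem ip_neg (u w : ι ⊕ ι → ℂ) : ip u (-w) = - ip u w := by
  simp [ip]

theorem smul_ip (c : ℂ) (u w : ι ⊕ ι → ℂ) : ip (c • u) w = star c * ip u w := by
  simp [ip, star_smul, smul_dotProduct]

theorem ip_star (u w : ι ⊕ ι → ℂ) : star (ip u w) = ip w u := by
  simp only [ip, dotProduct, star_sum, Pi.star_apply, star_mul, star_star]

theorem ip_self (u : ι ⊕ ι → ℂ) : ip u u = ((∑ x, Complex.normSq (u x) : ℝ) : ℂ) := by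
  simp only [ip, dotProduct, Pi.star_apply, Complex.ofReal_sum]
  refine Finset.sum_congr rfl fun x _ => ?_
  rw [← Complex.mul_conj, mul_comm]; rfl

theorem ip_self_pos {u : ι ⊕ ι → ℂ} (hu : u ≠ 0) : 0 < ∑ x, Complex.normSq (u x) := by
  obtain ⟨x, hx⟩ := Function.ne_iff.1 hu
  exact Finset.sum_pos' (fun i _ => Complex.normSq_nonneg _)
    ⟨x, Finset.mem_univ _, Complex.normSq_pos.2 hx⟩

theorem ip_mulVec {A : Matrix (ι ⊕ ι) (ι ⊕ ι) ℂ} (hA : IsSp A) (u w : ι ⊕ ι → ℂ) :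
    ip (A *ᵥ u) (A *ᵥ w) = ip u w := by
  rw [ip, star_mulVec, ← dotProduct_mulVec, mulVec_mulVec, hA.star_mul, one_mulVec, ip]

theorem form_eq (u w : ι ⊕ ι → ℂ) : u ⬝ᵥ (J ι *ᵥ w) = ip (sg u) w := by
  have h : star ((J ι)ᵀ *ᵥ star u) = u ᵥ* J ι := by
    rw [star_mulVec, star_star, J_transpose, conjTranspose_neg, J_conjT, neg_neg]
  rw [ip, sg, h, dotProduct_mulVec]

theorem sg_sg (u : ι ⊕ ι → ℂ) : sg (sg u) = -u := by
  have h : star ((J ι)ᵀ *ᵥ star u) = (J ι)ᵀ *ᵥ u := by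
    rw [star_mulVec, star_star, J_transpose, conjTranspose_neg, J_conjT, neg_neg,
      ← mulVec_transpose, J_transpose]
  rw [sg, sg, h, mulVec_mulVec, J_transpose, Matrix.neg_mul, Matrix.mul_neg, neg_neg, J_sq,
    neg_mulVec, one_mulVec]

theorem sg_smul (c : ℂ) (u : ι ⊕ ι → ℂ) : sg (c • u) = star c • sg u := by
  rw [sg, sg, star_smul, mulVec_smul]

theorem sg_add (u w : ι ⊕ ι → ℂ) : sg (u + w) = sg u + sg w := by
  rw [sg, sg, sg, star_add, mulVec_add]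

theorem sg_sub (u w : ι ⊕ ι → ℂ) : sg (u - w) = sg u - sg w := by
  rw [sg, sg, sg, star_sub, mulVec_sub]

theorem ip_sg_sg (u w : ι ⊕ ι → ℂ) : ip (sg u) (sg w) = ip w u := by
  rw [← form_eq, sg, mulVec_mulVec, J_transpose, Matrix.mul_neg, J_sq, neg_neg, one_mulVec, ip,
    dotProduct_comm]

theorem ip_sg_self (u : ι ⊕ ι → ℂ) : ip u (sg u) = 0 := by
  have h1 : ip (sg u) (sg (sg u)) = ip (sg u) u := ip_sg_sg u (sg u)
  rw [sg_sg, ip_neg] at h1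
  have h2 : ip (sg u) u = 0 := by
    have : (2 : ℂ) * ip (sg u) u = 0 := by linear_combination -h1
    simpa using this
  rw [← ip_star, h2, star_zero]

theorem ip_sg_of (u w : ι ⊕ ι → ℂ) : ip u (sg w) = - ip w (sg u) := by
  have h1 : ip (sg u) (sg (sg w)) = ip (sg w) u := ip_sg_sg u (sg w)
  rw [sg_sg, ip_neg] at h1
  rw [← ip_star (sg w) u, ← h1, star_neg, ip_star]

theorem mulVec_sg {A : Matrix (ι ⊕ ι) (ι ⊕ ι) ℂ} (hA : IsSp A) (u : ι ⊕ ι → ℂ) :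
    A *ᵥ sg u = sg (A *ᵥ u) := by
  have h : star (A *ᵥ u) = Aᴴᵀ *ᵥ star u := by
    rw [star_mulVec, ← mulVec_transpose]
  rw [sg, sg, h, mulVec_mulVec, mulVec_mulVec, J_transpose, Matrix.mul_neg, hA.comm_J,
    Matrix.neg_mul]

end Q54.SpI
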