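import Pool.Agent.Q54.SpI.Basic

set_option autoImplicit false
set_option linter.unusedSectionVars false

/-!
# Diagonalisation in the compact symplectic group
-/

namespace Q54.SpI

open Matrix

variable {ι : Type} [Fintype ι] [DecidableEq ι]

/-- the linear map of all pairings with a partial adapted family -/
def pairMap (v : ι → (ι ⊕ ι → ℂ)) (s : Finset ι) :
    (ι ⊕ ι → ℂ) →ₗ[ℂ] ((s ⊕ s) → ℂ) where
  toFun w := fun a => Sum.elim (fun i : s => ip (v i.1) w) (fun i : s => ip (sg (v i.1)) w) a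
  map_add' w w' := by
    funext a; rcases a with a | a <;> simp [ip_add]
  map_smul' c w := by
    funext a; rcases a with a | a <;> simp [ip_smul]

/-- the adapted family properties -/
structure Adapted (A : Matrix (ι ⊕ ι) (ι ⊕ ι) ℂ) (s : Finset ι) (v : ι → (ι ⊕ ι → ℂ))
    (z : ι → ℂ) : Prop where
  eig : ∀ i ∈ s, A *ᵥ v i = z i • v i
  nrm : ∀ i ∈ s, star (z i) * z i = 1
  ort : ∀ i ∈ s, ∀ j ∈ s, ip (v i) (v j) = if i = j then 1 else 0
  skw : ∀ i ∈ s, ∀ j ∈ s, ip (v i) (sg (v j)) = 0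

theorem exists_next {A : Matrix (ι ⊕ ι) (ι ⊕ ι) ℂ} (hA : IsSp A) {s : Finset ι}
    {v : ι → (ι ⊕ ι → ℂ)} {z : ι → ℂ} (h : Adapted A s v z) {a : ι} (ha : a ∉ s) :
    ∃ (w : ι ⊕ ι → ℂ) (c : ℂ), A *ᵥ w = c • w ∧ star c * c = 1 ∧ ip w w = 1 ∧
      ∀ i ∈ s, ip (v i) w = 0 ∧ ip (sg (v i)) w = 0 := by
  classical
  set W := LinearMap.ker (pairMap v s) with hW
  have hmem : ∀ w, w ∈ W ↔ ∀ i ∈ s, ip (v i) w = 0 ∧ ip (sg (v i)) w = 0 := by
    intro w
    rw [hW, LinearMap.mem_ker]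
    constructor
    · intro h0 i hi
      exact ⟨congrFun h0 (Sum.inl ⟨i, hi⟩), congrFun h0 (Sum.inr ⟨i, hi⟩)⟩
    · intro h0
      funext b
      rcases b with b | b
      · exact (h0 b b.2).1
      · exact (h0 b b.2).2
  have hcard : s.card < Fintype.card ι := by
    rw [← Finset.card_univ]
    exact Finset.card_lt_card (Finset.ssubset_univ_iff.2 fun he => ha (he ▸ Finset.mem_univ a))
  have hne : W ≠ ⊥ := by
    apply LinearMap.ker_ne_bot_of_finrank_lt
    simp only [Module.finrank_pi, Fintype.card_sum, Fintype.card_coe]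
    omega
  have hinv : ∀ w ∈ W, (Matrix.mulVecLin A) w ∈ W := by
    intro w hw
    rw [hmem] at hw ⊢
    intro i hi
    obtain ⟨h1, h2⟩ := hw i hi
    have hz : star (z i) ≠ 0 := by
      intro h0
      have := h.nrm i hi
      rw [h0, zero_mul] at this
      exact zero_ne_one this
    have hz' : z i ≠ 0 := by
      intro h0
      have := h.nrm i hi
      rw [h0, mul_zero] at this
      exact zero_ne_one this
    have e1 : ip (A *ᵥ v i) (A *ᵥ w) = 0 := by rw [ip_mulVec hA, h1]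
    have e2 : ip (A *ᵥ sg (v i)) (A *ᵥ w) = 0 := by rw [ip_mulVec hA, h2]
    rw [h.eig i hi, smul_ip] at e1
    rw [mulVec_sg hA, h.eig i hi, sg_smul, smul_ip, star_star] at e2
    exact ⟨(mul_eq_zero.1 e1).resolve_left hz, (mul_eq_zero.1 e2).resolve_left hz'⟩
  have hnt : Nontrivial W := Submodule.nontrivial_iff_ne_bot.2 hne
  obtain ⟨c, hc⟩ := Module.End.exists_eigenvalue ((Matrix.mulVecLin A).restrict hinv)
  obtain ⟨w, hw⟩ := hc.exists_hasEigenvector
  have hw1 : A *ᵥ (w : ι ⊕ ι → ℂ) = c • (w : ι ⊕ ι → ℂ) := by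
    have := congrArg Subtype.val hw.apply_eq_smul
    simpa using this
  have hw0 : (w : ι ⊕ ι → ℂ) ≠ 0 := by
    intro h0
    exact hw.2 (Subtype.ext h0)
  have hpos := ip_self_pos hw0
  set r : ℝ := ∑ x, Complex.normSq ((w : ι ⊕ ι → ℂ) x) with hr
  have hcc : star c * c = 1 := by
    have h1 := ip_mulVec hA (w : ι ⊕ ι → ℂ) (w : ι ⊕ ι → ℂ)
    rw [hw1, smul_ip, ip_smul, ip_self, ← hr, ← mul_assoc] at h1
    have h2 : (r : ℂ) ≠ 0 := by exact_mod_cast hpos.ne'
    exact mul_right_cancel₀ h2 (by rw [h1, one_mul])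
  refine ⟨((Real.sqrt r)⁻¹ : ℂ) • (w : ι ⊕ ι → ℂ), c, ?_, hcc, ?_, ?_⟩
  · rw [mulVec_smul, hw1, smul_comm]
  · rw [smul_ip, ip_smul, ip_self, ← hr]
    have h1 : Real.sqrt r * Real.sqrt r = r := Real.mul_self_sqrt hpos.le
    have h2 : ((Real.sqrt r : ℝ) : ℂ) ≠ 0 := by
      exact_mod_cast (Real.sqrt_pos.2 hpos).ne'
    have h3 : ((Real.sqrt r : ℝ) : ℂ) * (Real.sqrt r : ℝ) = (r : ℂ) := by exact_mod_cast h1
    have h4 : star ((Real.sqrt r : ℂ)⁻¹) = ((Real.sqrt r : ℂ)⁻¹) := by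
      rw [star_inv₀]; simp
    rw [h4, ← h3]
    field_simp
  · intro i hi
    obtain ⟨h1, h2⟩ := (hmem _).1 w.2 i hi
    rw [ip_smul, ip_smul, h1, h2]
    simp

theorem extend_one {A : Matrix (ι ⊕ ι) (ι ⊕ ι) ℂ} (hA : IsSp A) {s : Finset ι}
    {v : ι → (ι ⊕ ι → ℂ)} {z : ι → ℂ} (h : Adapted A s v z) {a : ι} (ha : a ∉ s) :
    ∃ (v' : ι → (ι ⊕ ι → ℂ)) (z' : ι → ℂ), Adapted A (insert a s) v' z' ∧
      ∀ i ∈ s, z' i = z i := by
  classical
  obtain ⟨w, c, h1, h2, h3, h4⟩ := exists_next hA h ha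
  have hne : ∀ i ∈ s, i ≠ a := fun i hi he => ha (he ▸ hi)
  refine ⟨Function.update v a w, Function.update z a c, ⟨?_, ?_, ?_, ?_⟩,
    fun i hi => Function.update_of_ne (hne i hi) _ _⟩
  · intro i hi
    rcases Finset.mem_insert.1 hi with rfl | hi
    · simpa using h1
    · simpa [Function.update_of_ne (hne i hi)] using h.eig i hi
  · intro i hi
    rcases Finset.mem_insert.1 hi with rfl | hi
    · simpa using h2
    · simpa [Function.update_of_ne (hne i hi)] using h.nrm i hi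
  · intro i hi j hj
    rcases Finset.mem_insert.1 hi with rfl | hi' <;> rcases Finset.mem_insert.1 hj with rfl | hj'
    · simpa using h3
    · rw [Function.update_self, Function.update_of_ne (hne j hj'), if_neg (hne j hj').symm,
        ← ip_star, (h4 j hj').1, star_zero]
    · rw [Function.update_self, Function.update_of_ne (hne i hi'), if_neg (hne i hi'),
        (h4 i hi').1]
    · rw [Function.update_of_ne (hne i hi'), Function.update_of_ne (hne j hj')]
      exact h.ort i hi' j hj'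
  · intro i hi j hj
    rcases Finset.mem_insert.1 hi with rfl | hi' <;> rcases Finset.mem_insert.1 hj with rfl | hj'
    · exact ip_sg_self _
    · rw [Function.update_self, Function.update_of_ne (hne j hj'),
        ← ip_star, (h4 j hj').2, star_zero]
    · rw [Function.update_self, Function.update_of_ne (hne i hi'), ip_sg_of, ← ip_star,
        (h4 i hi').2, star_zero, neg_zero]
    · rw [Function.update_of_ne (hne i hi'), Function.update_of_ne (hne j hj')]
      exact h.skw i hi' j hj'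

theorem extend {A : Matrix (ι ⊕ ι) (ι ⊕ ι) ℂ} (hA : IsSp A) {s : Finset ι}
    {v : ι → (ι ⊕ ι → ℂ)} {z : ι → ℂ} (h : Adapted A s v z) (t : Finset ι) :
    ∃ (v' : ι → (ι ⊕ ι → ℂ)) (z' : ι → ℂ), Adapted A (t ∪ s) v' z' ∧
      ∀ i ∈ s, z' i = z i := by
  classical
  induction t using Finset.induction_on with
  | empty => exact ⟨v, z, by simpa using h, fun _ _ => rfl⟩
  | insert a t ha ih =>
    obtain ⟨v', z', h', hz'⟩ := ih
    by_cases hm : a ∈ t ∪ s
    · refine ⟨v', z', ?_, hz'⟩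
      rwa [Finset.insert_union, Finset.insert_eq_of_mem hm]
    · obtain ⟨v'', z'', h'', hz''⟩ := extend_one hA h' hm
      refine ⟨v'', z'', ?_, fun i hi => ?_⟩
      · rwa [Finset.insert_union]
      · rw [hz'' i (Finset.mem_union_right _ hi), hz' i hi]

theorem exists_adapted {A : Matrix (ι ⊕ ι) (ι ⊕ ι) ℂ} (hA : IsSp A) :
    ∃ (v : ι → (ι ⊕ ι → ℂ)) (z : ι → ℂ), Adapted A Finset.univ v z := by
  have h0 : Adapted A (∅ : Finset ι) 0 0 := ⟨by simp, by simp, by simp, by simp⟩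
  obtain ⟨v, z, h, -⟩ := extend hA h0 Finset.univ
  exact ⟨v, z, by simpa using h⟩

/-- if there is a fixed vector, the family may start with it -/
theorem exists_adapted_fix {A : Matrix (ι ⊕ ι) (ι ⊕ ι) ℂ} (hA : IsSp A)
    {u : ι ⊕ ι → ℂ} (hu : u ≠ 0) (hfix : A *ᵥ u = u) (a : ι) :
    ∃ (v : ι → (ι ⊕ ι → ℂ)) (z : ι → ℂ), Adapted A Finset.univ v z ∧ z a = 1 := by
  have hpos := ip_self_pos hu
  set r : ℝ := ∑ x, Complex.normSq (u x) with hr
  have h1 : ip (((Real.sqrt r)⁻¹ : ℂ) • u) (((Real.sqrt r)⁻¹ : ℂ) • u) = 1 := by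
    rw [smul_ip, ip_smul, ip_self, ← hr]
    have h1 : Real.sqrt r * Real.sqrt r = r := Real.mul_self_sqrt hpos.le
    have h2 : ((Real.sqrt r : ℝ) : ℂ) ≠ 0 := by
      exact_mod_cast (Real.sqrt_pos.2 hpos).ne'
    have h3 : ((Real.sqrt r : ℝ) : ℂ) * (Real.sqrt r : ℝ) = (r : ℂ) := by exact_mod_cast h1
    have h4 : star ((Real.sqrt r : ℂ)⁻¹) = ((Real.sqrt r : ℂ)⁻¹) := by
      rw [star_inv₀]; simp
    rw [h4, ← h3]
    field_simp
  have h0 : Adapted A ({a} : Finset ι) (fun _ => ((Real.sqrt r)⁻¹ : ℂ) • u) (fun _ => 1) := by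
    refine ⟨fun i _ => ?_, fun i _ => by simp, fun i hi j hj => ?_, fun i _ j _ => ip_sg_self _⟩
    · rw [mulVec_smul, hfix, one_smul]
    · rw [Finset.mem_singleton] at hi hj
      rw [if_pos (hi.trans hj.symm), h1]
  obtain ⟨v, z, h, hz⟩ := extend hA h0 Finset.univ
  exact ⟨v, z, by simpa using h, hz a (Finset.mem_singleton_self a)⟩

/-- the diagonal element of the compact symplectic group -/
def dg (z : ι → ℂ) : Matrix (ι ⊕ ι) (ι ⊕ ι) ℂ :=
  fromBlocks (diagonal z) 0 0 (diagonal (star z))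

theorem dg_mul (z w : ι → ℂ) : dg z * dg w = dg (z * w) := by
  simp [dg, diagonal_mul_diagonal, star_mul, mul_comm]

theorem dg_sp {z : ι → ℂ} (hz : ∀ i, star (z i) * z i = 1) : IsSp (dg z) := by
  have h0 : (dg z)ᴴ = dg (star z) := by
    simp [dg, diagonal_conjTranspose]
  have h1 : (dg z)ᴴ * dg z = 1 := by
    rw [h0, dg_mul]
    have : (star z * z : ι → ℂ) = 1 := funext hz
    rw [this]
    simp [dg, ← fromBlocks_one]
  refine ⟨mem_unitaryGroup_iff'.2 h1, ?_⟩
  have hz' : ∀ i, z i * (starRingEnd ℂ) (z i) = 1 := fun i => by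
    rw [mul_comm]; exact hz i
  have hz2 : ∀ i, (starRingEnd ℂ) (z i) * z i = 1 := fun i => hz i
  rw [dg, J, fromBlocks_transpose, fromBlocks_multiply, fromBlocks_multiply]
  simp only [diagonal_transpose, transpose_zero, Matrix.mul_zero, Matrix.zero_mul, add_zero,
    zero_add, Matrix.mul_one, Matrix.mul_neg, Matrix.neg_mul, diagonal_mul_diagonal, neg_zero]
  congr 1
  · rw [← diagonal_one]; congr 1; funext i; exact hz' i
  · rw [← diagonal_one]; congr 2; funext i; exact hz2 i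

/-- every element of the compact symplectic group is conjugate to a diagonal one, with a
prescribed beginning -/
theorem exists_conj_of {A : Matrix (ι ⊕ ι) (ι ⊕ ι) ℂ} (hA : IsSp A)
    {v : ι → (ι ⊕ ι → ℂ)} {z : ι → ℂ} (h : Adapted A Finset.univ v z) :
    ∃ P : Matrix (ι ⊕ ι) (ι ⊕ ι) ℂ, IsSp P ∧ A = P * dg z * Pᴴ := by
  classical
  set P : Matrix (ι ⊕ ι) (ι ⊕ ι) ℂ :=
    Matrix.of fun x y => Sum.elim (fun i => v i x) (fun i => sg (v i) x) y with hP
  have hcol : ∀ y, (fun x => P x y) = Sum.elim (fun i => v i) (fun i => sg (v i)) y := by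
    intro y
    rcases y with y | y <;> rfl
  have hip : ∀ a b, ip (fun x => P x a) (fun x => P x b) = (1 : Matrix (ι ⊕ ι) (ι ⊕ ι) ℂ) a b := by
    intro a b
    rw [hcol, hcol]
    rcases a with a | a <;> rcases b with b | b
    · simp only [Sum.elim_inl]
      rw [h.ort a (Finset.mem_univ _) b (Finset.mem_univ _), Matrix.one_apply]
      simp
    · simp only [Sum.elim_inl, Sum.elim_inr]
      rw [h.skw a (Finset.mem_univ _) b (Finset.mem_univ _), Matrix.one_apply]
      simp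
    · simp only [Sum.elim_inl, Sum.elim_inr]
      rw [← ip_star, h.skw b (Finset.mem_univ _) a (Finset.mem_univ _), Matrix.one_apply]
      simp
    · simp only [Sum.elim_inr]
      rw [ip_sg_sg, h.ort b (Finset.mem_univ _) a (Finset.mem_univ _), Matrix.one_apply]
      simp [eq_comm]
  have h1 : Pᴴ * P = 1 := by
    ext a b
    rw [← hip a b]
    rfl
  have h2 : Pᵀ * J ι * P = J ι := by
    ext a b
    have e : (Pᵀ * J ι * P) a b = ip (sg (fun x => P x a)) (fun x => P x b) := by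
      rw [← form_eq, Matrix.mul_assoc]
      rfl
    rw [e]
    have hs : ∀ i, sg (Sum.elim (fun i => v i) (fun i => sg (v i)) (Sum.inl i : ι ⊕ ι))
        = Sum.elim (fun i => v i) (fun i => sg (v i)) (Sum.inr i : ι ⊕ ι) := fun i => rfl
    rcases a with a | a
    · have : sg (fun x => P x (Sum.inl a)) = fun x => P x (Sum.inr a) := by
        rw [hcol, hcol]; rfl
      rw [this, hip]
      rcases b with b | b <;> simp [J, Matrix.one_apply]
    · have : sg (fun x => P x (Sum.inr a)) = - fun x => P x (Sum.inl a) := by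
        rw [hcol, hcol]
        simp only [Sum.elim_inr, Sum.elim_inl]
        rw [sg_sg]
      rw [this, neg_ip, hip]
      rcases b with b | b <;> simp [J, Matrix.one_apply]
  have hPs : IsSp P := ⟨mem_unitaryGroup_iff'.2 h1, h2⟩
  refine ⟨P, hPs, ?_⟩
  have h3 : A * P = P * dg z := by
    ext x y
    have e1 : (A * P) x y = (A *ᵥ (fun x => P x y)) x := rfl
    rw [e1, hcol]
    rcases y with y | y
    · simp only [Sum.elim_inl]
      rw [h.eig y (Finset.mem_univ _)]
      simp [dg, Matrix.mul_apply, hP, diagonal_apply, mul_comm]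
    · simp only [Sum.elim_inr]
      rw [mulVec_sg hA, h.eig y (Finset.mem_univ _), sg_smul]
      simp [dg, Matrix.mul_apply, hP, diagonal_apply, mul_comm]
  rw [← h3, Matrix.mul_assoc, hPs.mul_star, Matrix.mul_one]

end Q54.SpI
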