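import Pool.Agent.Q54.SpI.Prod

set_option autoImplicit false
set_option linter.unusedSectionVars false

/-!
# Involution length of the compact symplectic group
-/

namespace Q54.SpI

open Matrix

variable {ι : Type} [Fintype ι] [DecidableEq ι] {κ : Type} [Fintype κ] [DecidableEq κ]

theorem fix_of {A : Matrix (ι ⊕ ι) (ι ⊕ ι) ℂ} (hA : IsSp A) {p q : ι ⊕ ι → ℂ} {α β : ℂ}
    (hp : A *ᵥ p = α • p) (hq : A *ᵥ q = β • q) (hα : star α * α = 1) (hβ : star β * β = 1)
    (hpp : ip p p = 1) (hqq : ip q q = 1) (hpq : ip p q = 0) (hspq : ip (sg p) q = 0)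
    {r s : ℝ} (hrs : r ^ 2 + s ^ 2 ≠ 0) (him : r ^ 2 * α.im + s ^ 2 * β.im = 0) :
    ∃ X u, IsInv X ∧ u ≠ 0 ∧ (A * X) *ᵥ u = u := by
  have hp' : Aᴴ *ᵥ p = star α • p := by
    have h1 : Aᴴ *ᵥ (A *ᵥ p) = p := by rw [mulVec_mulVec, hA.star_mul, one_mulVec]
    rw [hp, mulVec_smul] at h1
    calc Aᴴ *ᵥ p = (star α * α) • (Aᴴ *ᵥ p) := by rw [hα, one_smul]
      _ = star α • p := by rw [← smul_smul, h1]
  have hq' : Aᴴ *ᵥ q = star β • q := by
    have h1 : Aᴴ *ᵥ (A *ᵥ q) = q := by rw [mulVec_mulVec, hA.star_mul, one_mulVec]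
    rw [hq, mulVec_smul] at h1
    calc Aᴴ *ᵥ q = (star β * β) • (Aᴴ *ᵥ q) := by rw [hβ, one_smul]
      _ = star β • q := by rw [← smul_smul, h1]
  have hqp : ip q p = 0 := by rw [← ip_star, hpq, star_zero]
  have hsqp : ip (sg q) p = 0 := by rw [ip_sg_left, hspq, neg_zero]
  have hspp : ip (sg p) p = 0 := by rw [← ip_star, ip_sg_self, star_zero]
  have hsqq : ip (sg q) q = 0 := by rw [← ip_star, ip_sg_self, star_zero]
  set u : ι ⊕ ι → ℂ := (r : ℂ) • p + (s : ℂ) • q with hu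
  set y : ι ⊕ ι → ℂ := Aᴴ *ᵥ u with hy
  have hy' : y = (r * star α : ℂ) • p + (s * star β : ℂ) • q := by
    rw [hy, hu, mulVec_add, mulVec_smul, mulVec_smul, hp', hq', smul_smul, smul_smul]
  have hr : star (r : ℂ) = r := Complex.conj_ofReal r
  have hs : star (s : ℂ) = s := Complex.conj_ofReal s
  have huu : ip u u = ((r ^ 2 + s ^ 2 : ℝ) : ℂ) := by
    rw [hu, add_ip, ip_add, ip_add, smul_ip, smul_ip, ip_smul, ip_smul, hpp, hpq, hr,
      smul_ip, ip_smul, hqp, smul_ip, ip_smul, hqq, hs]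
    push_cast
    ring
  have h1 : ip u u = ip y y := by rw [hy, ip_mulVec hA.star]
  have huy : ip u y = (r : ℂ) ^ 2 * star α + (s : ℂ) ^ 2 * star β := by
    rw [hy', hu, add_ip, ip_add, ip_add, smul_ip, smul_ip, ip_smul, ip_smul, hpp, hpq, hr,
      smul_ip, ip_smul, hqp, smul_ip, ip_smul, hqq, hs]
    ring
  have h2 : ip u y = ip y u := by
    rw [← ip_star u y, huy]
    apply Complex.ext
    · exact (Complex.conj_re _).symm
    · have : ((r : ℂ) ^ 2 * star α + (s : ℂ) ^ 2 * star β).im = 0 := by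
        have e : ((r : ℂ) ^ 2 * star α + (s : ℂ) ^ 2 * star β).im
            = -(r ^ 2 * α.im + s ^ 2 * β.im) := by
          rw [← Complex.ofReal_pow, ← Complex.ofReal_pow]
          simp only [Complex.add_im, Complex.im_ofReal_mul]
          simp
          ring
        rw [e, him, neg_zero]
      have e2 : (star ((r : ℂ) ^ 2 * star α + (s : ℂ) ^ 2 * star β)).im
          = -((r : ℂ) ^ 2 * star α + (s : ℂ) ^ 2 * star β).im := Complex.conj_im _
      rw [e2, this, neg_zero]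
  have h3 : ip (sg u) y = 0 := by
    rw [hy', hu, sg_add, sg_smul, sg_smul, add_ip, ip_add, ip_add, smul_ip, ip_smul, hspp,
      smul_ip, ip_smul, hspq, smul_ip, ip_smul, hsqp, smul_ip, ip_smul, hsqq]
    ring
  obtain ⟨X, hX, hXu⟩ := exists_reflection h1 h2 h3
  refine ⟨X, u, hX, ?_, ?_⟩
  · intro h0
    rw [h0] at huu
    have e : ip (0 : ι ⊕ ι → ℂ) 0 = 0 := by simp [ip]
    rw [e] at huu
    exact hrs (by exact_mod_cast huu.symm)
  · rw [← mulVec_mulVec, hXu, hy, mulVec_mulVec, hA.mul_star, one_mulVec]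

theorem exists_fix {A : Matrix (ι ⊕ ι) (ι ⊕ ι) ℂ} (hA : IsSp A) {i j : ι} (hij : i ≠ j) :
    ∃ X u, IsInv X ∧ u ≠ 0 ∧ (A * X) *ᵥ u = u := by
  obtain ⟨v, z, h⟩ := exists_adapted hA
  have hi := Finset.mem_univ i
  have hj := Finset.mem_univ j
  have hpp : ip (v i) (v i) = 1 := by rw [h.ort i hi i hi, if_pos rfl]
  have hqq : ip (v j) (v j) = 1 := by rw [h.ort j hj j hj, if_pos rfl]
  have hpq : ip (v i) (v j) = 0 := by rw [h.ort i hi j hj, if_neg hij]
  have hspq : ip (sg (v i)) (v j) = 0 := by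
    rw [← ip_star, h.skw j hj i hi, star_zero]
  by_cases h0 : (z i).im = 0
  · exact fix_of hA (h.eig i hi) (h.eig j hj) (h.nrm i hi) (h.nrm j hj) hpp hqq hpq hspq
      (r := 1) (s := 0) (by norm_num) (by rw [h0]; ring)
  · -- the general step
    have key : ∀ b : ℝ, (z i).im * b ≤ 0 → ∃ r : ℝ, r ^ 2 * (z i).im + 1 ^ 2 * b = 0 := by
      intro b hb
      refine ⟨Real.sqrt (-b / (z i).im), ?_⟩
      have hnn : 0 ≤ -b / (z i).im := by
        have e : -b / (z i).im = (-((z i).im * b)) / ((z i).im ^ 2) := by field_simp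
        rw [e]
        apply div_nonneg (by linarith) (sq_nonneg _)
      rw [Real.sq_sqrt hnn]
      field_simp
      ring
    by_cases hs : (z i).im * (z j).im ≤ 0
    · obtain ⟨r, hr⟩ := key _ hs
      exact fix_of hA (h.eig i hi) (h.eig j hj) (h.nrm i hi) (h.nrm j hj) hpp hqq hpq hspq
        (r := r) (s := 1) (by positivity) hr
    · have e : (star (z j)).im = -(z j).im := Complex.conj_im _
      obtain ⟨r, hr⟩ := key (star (z j)).im (by rw [e]; nlinarith)
      refine fix_of hA (h.eig i hi) (q := sg (v j)) (β := star (z j)) ?_ (h.nrm i hi) ?_ hpp ?_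
        (h.skw i hi j hj) ?_ (r := r) (s := 1) (by positivity) hr
      · rw [mulVec_sg hA, h.eig j hj, sg_smul]
      · rw [star_star, mul_comm]; exact h.nrm j hj
      · rw [ip_sg_sg, hqq]
      · rw [ip_sg_sg, ← ip_star, hpq, star_zero]

theorem main {n : ℕ} (hn : 2 ≤ n) {A : Matrix (Fin n ⊕ Fin n) (Fin n ⊕ Fin n) ℂ}
    (hA : IsSp A) :
    (∃ X₁ X₂ X₃ X₄ X₅ : Matrix (Fin n ⊕ Fin n) (Fin n ⊕ Fin n) ℂ,
      IsInv X₁ ∧ IsInv X₂ ∧ IsInv X₃ ∧ IsInv X₄ ∧ IsInv X₅ ∧ A = X₁ * X₂ * X₃ * X₄ * X₅) ∧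
    (Even n → Four A) := by
  have heven : Even n → Four A := by
    intro he
    obtain ⟨m, rfl⟩ := he
    obtain ⟨v, z, h⟩ := exists_adapted hA
    obtain ⟨P, hP, hPA⟩ := exists_conj_of hA h
    rw [hPA]
    refine Four.conj ?_ hP
    have e : Fin (m + m) ≃ Fin m ⊕ Fin m := finSumFinEquiv.symm
    have h1 := (four_even (z ∘ e.symm) (fun i => h.nrm _ (Finset.mem_univ _))).sub e
    rw [dg_sub] at h1
    have : (z ∘ e.symm) ∘ e = z := by funext i; simp
    rwa [this] at h1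
  refine ⟨?_, heven⟩
  rcases Nat.even_or_odd n with he | ho
  · obtain ⟨X₁, X₂, X₃, X₄, h1, h2, h3, h4, h5⟩ := heven he
    exact ⟨X₁, X₂, X₃, X₄, 1, h1, h2, h3, h4, ⟨one_sp, by simp⟩, by rw [h5, Matrix.mul_one]⟩
  · obtain ⟨m, rfl⟩ := ho
    have e : Fin (2 * m + 1) ≃ Unit ⊕ (Fin m ⊕ Fin m) :=
      Fintype.equivOfCardEq (by simp; ring)
    obtain ⟨X, u, hX, hu, hfix⟩ := exists_fix hA
      (i := (⟨0, by omega⟩ : Fin (2 * m + 1))) (j := (⟨1, by omega⟩ : Fin (2 * m + 1)))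
      (by simp [Fin.ext_iff])
    have hB : IsSp (A * X) := hA.mul hX.1
    obtain ⟨v, z, h, hz⟩ := exists_adapted_fix hB hu hfix (e.symm (Sum.inl ()))
    obtain ⟨P, hP, hPA⟩ := exists_conj_of hB h
    have h4 : Four (A * X) := by
      rw [hPA]
      refine Four.conj ?_ hP
      have h1 := (four_even (fun i => z (e.symm (Sum.inr i)))
        (fun i => h.nrm _ (Finset.mem_univ _))).extd.sub e
      rw [dg_extd, dg_sub] at h1
      have : (Sum.elim (fun _ : Unit => (1 : ℂ)) fun i => z (e.symm (Sum.inr i))) ∘ e = z := by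
        funext i
        obtain ⟨a, rfl⟩ := e.symm.surjective i
        rcases a with a | a
        · simp only [Function.comp_apply, Equiv.apply_symm_apply, Sum.elim_inl]
          exact hz.symm
        · simp
      rwa [this] at h1
    obtain ⟨X₁, X₂, X₃, X₄, h1, h2, h3, h4, h5⟩ := h4
    refine ⟨X₁, X₂, X₃, X₄, X, h1, h2, h3, h4, hX, ?_⟩
    rw [← h5, Matrix.mul_assoc, hX.2, Matrix.mul_one]

end Q54.SpI
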