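import Pool.Agent.Q54.SpI.Diag

set_option autoImplicit false
set_option linter.unusedSectionVars false

/-!
# Products of involutions
-/

namespace Q54.SpI

open Matrix

variable {ι : Type} [Fintype ι] [DecidableEq ι] {κ : Type} [Fintype κ] [DecidableEq κ]

/-- product of four involutions -/
def Four (A : Matrix (ι ⊕ ι) (ι ⊕ ι) ℂ) : Prop :=
  ∃ X₁ X₂ X₃ X₄ : Matrix (ι ⊕ ι) (ι ⊕ ι) ℂ,
    IsInv X₁ ∧ IsInv X₂ ∧ IsInv X₃ ∧ IsInv X₄ ∧ A = X₁ * X₂ * X₃ * X₄

theorem IsInv.conj {X P : Matrix (ι ⊕ ι) (ι ⊕ ι) ℂ} (hX : IsInv X) (hP : IsSp P) :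
    IsInv (P * X * Pᴴ) := by
  refine ⟨(hP.mul hX.1).mul hP.star, ?_⟩
  calc P * X * Pᴴ * (P * X * Pᴴ) = P * X * (Pᴴ * P) * X * Pᴴ := by
        simp only [Matrix.mul_assoc]
    _ = P * (X * X) * Pᴴ := by rw [hP.star_mul]; simp only [Matrix.mul_assoc, Matrix.mul_one]
    _ = 1 := by rw [hX.2, Matrix.mul_one, hP.mul_star]

theorem Four.conj {A P : Matrix (ι ⊕ ι) (ι ⊕ ι) ℂ} (hA : Four A) (hP : IsSp P) :
    Four (P * A * Pᴴ) := by
  obtain ⟨X₁, X₂, X₃, X₄, h1, h2, h3, h4, rfl⟩ := hA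
  refine ⟨_, _, _, _, h1.conj hP, h2.conj hP, h3.conj hP, h4.conj hP, ?_⟩
  have e : ∀ X Y : Matrix (ι ⊕ ι) (ι ⊕ ι) ℂ, P * X * Pᴴ * (P * Y * Pᴴ) = P * (X * Y) * Pᴴ := by
    intro X Y
    calc P * X * Pᴴ * (P * Y * Pᴴ) = P * X * (Pᴴ * P) * Y * Pᴴ := by
          simp only [Matrix.mul_assoc]
      _ = P * (X * Y) * Pᴴ := by
          rw [hP.star_mul]; simp only [Matrix.mul_assoc, Matrix.one_mul]
  rw [e, e, e]

/-! ### change of index type -/

theorem J_sub (e : κ ≃ ι) :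
    (J ι).submatrix (Equiv.sumCongr e e) (Equiv.sumCongr e e) = J κ := by
  ext a b
  rcases a with a | a <;> rcases b with b | b <;> simp [J, Matrix.one_apply]

theorem IsSp.sub {A : Matrix (ι ⊕ ι) (ι ⊕ ι) ℂ} (hA : IsSp A) (e : κ ≃ ι) :
    IsSp (A.submatrix (Equiv.sumCongr e e) (Equiv.sumCongr e e)) := by
  refine ⟨mem_unitaryGroup_iff'.2 ?_, ?_⟩
  · rw [star_eq_conjTranspose, conjTranspose_submatrix, submatrix_mul_equiv, hA.star_mul,
      submatrix_one_equiv]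
  · rw [transpose_submatrix, ← J_sub e, submatrix_mul_equiv, submatrix_mul_equiv, hA.2]

theorem IsInv.sub {A : Matrix (ι ⊕ ι) (ι ⊕ ι) ℂ} (hA : IsInv A) (e : κ ≃ ι) :
    IsInv (A.submatrix (Equiv.sumCongr e e) (Equiv.sumCongr e e)) := by
  refine ⟨hA.1.sub e, ?_⟩
  rw [submatrix_mul_equiv, hA.2, submatrix_one_equiv]

theorem Four.sub {A : Matrix (ι ⊕ ι) (ι ⊕ ι) ℂ} (hA : Four A) (e : κ ≃ ι) :
    Four (A.submatrix (Equiv.sumCongr e e) (Equiv.sumCongr e e)) := by
  obtain ⟨X₁, X₂, X₃, X₄, h1, h2, h3, h4, rfl⟩ := hA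
  refine ⟨_, _, _, _, h1.sub e, h2.sub e, h3.sub e, h4.sub e, ?_⟩
  rw [submatrix_mul_equiv, submatrix_mul_equiv, submatrix_mul_equiv]

theorem dg_sub (z : ι → ℂ) (e : κ ≃ ι) :
    (dg z).submatrix (Equiv.sumCongr e e) (Equiv.sumCongr e e) = dg (z ∘ e) := by
  ext a b
  rcases a with a | a <;> rcases b with b | b <;> simp [dg, diagonal_apply]

/-! ### adding a trivial coordinate -/

/-- the rearrangement of the coordinates -/
def shuf (κ : Type) : (Unit ⊕ κ) ⊕ (Unit ⊕ κ) ≃ (Unit ⊕ Unit) ⊕ (κ ⊕ κ) :=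
  Equiv.sumSumSumComm Unit κ Unit κ

/-- extension by the identity -/
def extd (X : Matrix (κ ⊕ κ) (κ ⊕ κ) ℂ) :
    Matrix ((Unit ⊕ κ) ⊕ (Unit ⊕ κ)) ((Unit ⊕ κ) ⊕ (Unit ⊕ κ)) ℂ :=
  (fromBlocks (1 : Matrix (Unit ⊕ Unit) (Unit ⊕ Unit) ℂ) 0 0 X).submatrix (shuf κ) (shuf κ)

theorem extd_mul (X Y : Matrix (κ ⊕ κ) (κ ⊕ κ) ℂ) : extd X * extd Y = extd (X * Y) := by
  rw [extd, extd, submatrix_mul_equiv, fromBlocks_multiply, extd]
  simp

theorem extd_one : extd (1 : Matrix (κ ⊕ κ) (κ ⊕ κ) ℂ) = 1 := by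
  rw [extd, fromBlocks_one, submatrix_one_equiv]

theorem J_extd :
    (fromBlocks (J Unit) 0 0 (J κ)).submatrix (shuf κ) (shuf κ) = J (Unit ⊕ κ) := by
  ext a b
  rcases a with (a | a) | (a | a) <;> rcases b with (b | b) | (b | b) <;>
    simp [J, shuf, Matrix.one_apply]

theorem IsSp.extd {X : Matrix (κ ⊕ κ) (κ ⊕ κ) ℂ} (hX : IsSp X) : IsSp (extd X) := by
  refine ⟨mem_unitaryGroup_iff'.2 ?_, ?_⟩
  · rw [star_eq_conjTranspose, SpI.extd, conjTranspose_submatrix, submatrix_mul_equiv,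
      fromBlocks_conjTranspose, fromBlocks_multiply, hX.star_mul]
    simp [fromBlocks_one]
  · rw [← J_extd, SpI.extd, transpose_submatrix, submatrix_mul_equiv, submatrix_mul_equiv,
      fromBlocks_transpose, fromBlocks_multiply, fromBlocks_multiply]
    congr 1
    simp [hX.2]

theorem IsInv.extd {X : Matrix (κ ⊕ κ) (κ ⊕ κ) ℂ} (hX : IsInv X) : IsInv (extd X) :=
  ⟨hX.1.extd, by rw [extd_mul, hX.2, extd_one]⟩

theorem Four.extd {X : Matrix (κ ⊕ κ) (κ ⊕ κ) ℂ} (hX : Four X) : Four (extd X) := by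
  obtain ⟨X₁, X₂, X₃, X₄, h1, h2, h3, h4, rfl⟩ := hX
  refine ⟨_, _, _, _, h1.extd, h2.extd, h3.extd, h4.extd, ?_⟩
  rw [extd_mul, extd_mul, extd_mul]

theorem dg_extd (z : κ → ℂ) : extd (dg z) = dg (Sum.elim (fun _ : Unit => 1) z) := by
  ext a b
  rcases a with (a | a) | (a | a) <;> rcases b with (b | b) | (b | b) <;>
    simp [extd, dg, shuf, diagonal_apply]

/-! ### diagonal elements with an even number of coordinates -/

/-- the quaternionic rotation -/
def KK (κ : Type) [DecidableEq κ] : Matrix ((κ ⊕ κ) ⊕ (κ ⊕ κ)) ((κ ⊕ κ) ⊕ (κ ⊕ κ)) ℂ :=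
  fromBlocks 0 (- J κ) (J κ) 0

/-- the swap of the two halves -/
def TT (κ : Type) [DecidableEq κ] : Matrix (κ ⊕ κ) (κ ⊕ κ) ℂ := fromBlocks 0 1 1 0

/-- the swap -/
def SS (κ : Type) [DecidableEq κ] : Matrix ((κ ⊕ κ) ⊕ (κ ⊕ κ)) ((κ ⊕ κ) ⊕ (κ ⊕ κ)) ℂ :=
  fromBlocks (TT κ) 0 0 (TT κ)

theorem KK_sq : KK κ * KK κ = 1 := by
  rw [KK, fromBlocks_multiply]
  simp [J_sq, fromBlocks_one]

theorem TT_sq : TT κ * TT κ = 1 := by
  rw [TT, fromBlocks_multiply]
  simp [fromBlocks_one]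

theorem SS_sq : SS κ * SS κ = 1 := by
  rw [SS, fromBlocks_multiply]
  simp [TT_sq, fromBlocks_one]

theorem KK_inv : IsInv (KK κ) := by
  have h1 : (KK κ)ᴴ = KK κ := by
    rw [KK, fromBlocks_conjTranspose]
    simp [J_conjT]
  have h2 : (KK κ)ᵀ = KK κ := by
    rw [KK, fromBlocks_transpose]
    simp [J_transpose]
  refine ⟨⟨mem_unitaryGroup_iff'.2 ?_, ?_⟩, KK_sq⟩
  · rw [star_eq_conjTranspose, h1, KK_sq]
  · rw [h2]
    have h3 : KK κ * J (κ ⊕ κ) = J (κ ⊕ κ) * KK κ := by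
      rw [KK, show J (κ ⊕ κ) = fromBlocks 0 1 (-1) 0 from rfl, fromBlocks_multiply,
        fromBlocks_multiply]
      simp
    rw [h3, Matrix.mul_assoc, KK_sq, Matrix.mul_one]

theorem TT_conjT : (TT κ)ᴴ = TT κ := by
  rw [TT, fromBlocks_conjTranspose]
  simp

theorem TT_transpose : (TT κ)ᵀ = TT κ := by
  rw [TT, fromBlocks_transpose]
  simp

theorem SS_inv : IsInv (SS κ) := by
  have h1 : (SS κ)ᴴ = SS κ := by
    rw [SS, fromBlocks_conjTranspose]
    simp [TT_conjT]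
  have h2 : (SS κ)ᵀ = SS κ := by
    rw [SS, fromBlocks_transpose]
    simp [TT_transpose]
  refine ⟨⟨mem_unitaryGroup_iff'.2 ?_, ?_⟩, SS_sq⟩
  · rw [star_eq_conjTranspose, h1, SS_sq]
  · rw [h2]
    have h3 : SS κ * J (κ ⊕ κ) = J (κ ⊕ κ) * SS κ := by
      rw [SS, show J (κ ⊕ κ) = fromBlocks 0 1 (-1) 0 from rfl, fromBlocks_multiply,
        fromBlocks_multiply]
      simp
    rw [h3, Matrix.mul_assoc, SS_sq, Matrix.mul_one]

theorem J_diag (a : κ → ℂ) :
    J κ * diagonal (Sum.elim a a) * J κ = - diagonal (Sum.elim a a) := by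
  rw [← fromBlocks_diagonal, J, fromBlocks_multiply, fromBlocks_multiply, fromBlocks_neg]
  simp

theorem TT_diag (a b : κ → ℂ) :
    TT κ * diagonal (Sum.elim a b) * TT κ = diagonal (Sum.elim b a) := by
  rw [← fromBlocks_diagonal, TT, fromBlocks_multiply, fromBlocks_multiply, ← fromBlocks_diagonal]
  simp

theorem star_elim (a b : κ → ℂ) : star (Sum.elim a b) = Sum.elim (star a) (star b) := by
  funext x
  rcases x with x | x <;> rfl

theorem KK_conj (a : κ → ℂ) :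
    KK κ * dg (Sum.elim a a) * KK κ = dg (Sum.elim (star a) (star a)) := by
  rw [KK, dg, dg, fromBlocks_multiply, fromBlocks_multiply, star_elim, star_elim, star_star]
  simp only [Matrix.zero_mul, Matrix.mul_zero, zero_add, add_zero, Matrix.neg_mul,
    Matrix.mul_neg, J_diag, neg_neg, neg_zero]

theorem SS_conj (a b : κ → ℂ) :
    SS κ * dg (Sum.elim a b) * SS κ = dg (Sum.elim b a) := by
  rw [SS, dg, dg, fromBlocks_multiply, fromBlocks_multiply, star_elim, star_elim]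
  simp only [Matrix.zero_mul, Matrix.mul_zero, zero_add, add_zero, TT_diag]

theorem two_of {K D E : Matrix (ι ⊕ ι) (ι ⊕ ι) ℂ} (hK : IsInv K) (hD : IsSp D)
    (h : K * D * K = E) (hE : E * D = 1) : IsInv (K * D) ∧ D = K * (K * D) := by
  refine ⟨⟨hK.1.mul hD, ?_⟩, ?_⟩
  · rw [← Matrix.mul_assoc, h, hE]
  · rw [← Matrix.mul_assoc, hK.2, Matrix.one_mul]

theorem dg_one : dg (1 : ι → ℂ) = 1 := by
  rw [dg, star_one, ← fromBlocks_one]
  congr 1

theorem four_even (z : κ ⊕ κ → ℂ) (hz : ∀ i, star (z i) * z i = 1) : Four (dg z) := by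
  have hex : ∀ k : κ, ∃ a : ℂ, a ^ 2 = z (Sum.inl k) * z (Sum.inr k) := fun k =>
    IsAlgClosed.exists_pow_nat_eq _ (by norm_num)
  choose a ha using hex
  have haa : ∀ k, star (a k) * a k = 1 := by
    intro k
    have h1 : Complex.normSq (a k) ^ 2 = 1 := by
      rw [← map_pow, ha k, map_mul]
      have e1 : Complex.normSq (z (Sum.inl k)) = 1 := by
        have := hz (Sum.inl k)
        have h2 : ((Complex.normSq (z (Sum.inl k)) : ℝ) : ℂ) = 1 := by
          rw [Complex.normSq_eq_conj_mul_self]; exact this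
        exact_mod_cast h2
      have e2 : Complex.normSq (z (Sum.inr k)) = 1 := by
        have := hz (Sum.inr k)
        have h2 : ((Complex.normSq (z (Sum.inr k)) : ℝ) : ℂ) = 1 := by
          rw [Complex.normSq_eq_conj_mul_self]; exact this
        exact_mod_cast h2
      rw [e1, e2, one_mul]
    have h2 : Complex.normSq (a k) = 1 := by
      have h3 := Complex.normSq_nonneg (a k)
      nlinarith
    have h3 : ((Complex.normSq (a k) : ℝ) : ℂ) = 1 := by rw [h2]; simp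
    rw [Complex.normSq_eq_conj_mul_self] at h3
    exact h3
  set b : κ → ℂ := fun k => star (a k) * z (Sum.inl k) with hb
  have hbb : ∀ k, star (b k) * b k = 1 := by
    intro k
    have h1 := haa k
    have h2 := hz (Sum.inl k)
    simp only [hb, star_mul, star_star]
    calc star (z (Sum.inl k)) * a k * (star (a k) * z (Sum.inl k))
        = (star (a k) * a k) * (star (z (Sum.inl k)) * z (Sum.inl k)) := by ring
      _ = 1 := by rw [h1, h2, one_mul]
  have hz1 : z = Sum.elim a a * Sum.elim b (star b) := by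
    funext x
    rcases x with k | k
    · simp only [Pi.mul_apply, Sum.elim_inl, hb]
      have h1 := haa k
      linear_combination (-z (Sum.inl k)) * h1
    · simp only [Pi.mul_apply, Sum.elim_inr, Pi.star_apply, hb, star_mul, star_star]
      have h1 := ha k
      have h2 := hz (Sum.inl k)
      linear_combination (- star (z (Sum.inl k))) * h1 - z (Sum.inr k) * h2
  have hD1 : IsSp (dg (Sum.elim a a)) := dg_sp (fun x => by
    rcases x with k | k <;> exact haa k)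
  have hD2 : IsSp (dg (Sum.elim b (star b))) := dg_sp (fun x => by
    rcases x with k | k
    · exact hbb k
    · simp only [Sum.elim_inr, Pi.star_apply, star_star]
      rw [mul_comm]; exact hbb k)
  obtain ⟨h1, e1⟩ := two_of (KK_inv (κ := κ)) hD1 (KK_conj a) (by
    rw [dg_mul, ← dg_one]
    congr 1
    funext x
    rcases x with k | k <;> exact haa k)
  obtain ⟨h2, e2⟩ := two_of (SS_inv (κ := κ)) hD2 (SS_conj b (star b)) (by
    rw [dg_mul, ← dg_one]
    congr 1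
    funext x
    rcases x with k | k
    · exact hbb k
    · simp only [Pi.mul_apply, Sum.elim_inr, Pi.star_apply, Pi.one_apply]
      rw [mul_comm]; exact hbb k)
  refine ⟨_, _, _, _, KK_inv, h1, SS_inv, h2, ?_⟩
  rw [Matrix.mul_assoc (KK κ * (KK κ * _)), ← e1, ← e2, dg_mul, ← hz1]

/-! ### the reflection -/

theorem ip_sg_left (u w : ι ⊕ ι → ℂ) : ip (sg u) w = - ip (sg w) u := by
  have h := ip_sg_of w u
  rw [← ip_star, ← ip_star w (sg u)] at *
  have := congrArg star h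
  simpa [ip_star] using this

theorem exists_reflection {u y : ι ⊕ ι → ℂ} (h1 : ip u u = ip y y) (h2 : ip u y = ip y u)
    (h3 : ip (sg u) y = 0) : ∃ X : Matrix (ι ⊕ ι) (ι ⊕ ι) ℂ, IsInv X ∧ X *ᵥ u = y := by
  by_cases huy : u = y
  · exact ⟨1, ⟨one_sp, by simp⟩, by simp [huy]⟩
  set w := u - y with hw
  have hw0 : w ≠ 0 := sub_ne_zero.2 huy
  have hpos := ip_self_pos hw0
  set N : ℝ := ∑ x, Complex.normSq (w x) with hN
  have hNw : ip w w = (N : ℂ) := ip_self w
  have hN0 : (N : ℂ) ≠ 0 := by exact_mod_cast hpos.ne'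
  have hs1 : ip w (sg w) = 0 := ip_sg_self w
  have hs2 : ip (sg w) w = 0 := by rw [← ip_star, hs1, star_zero]
  have hs3 : ip (sg w) (sg w) = (N : ℂ) := by rw [ip_sg_sg, hNw]
  set Q : Matrix (ι ⊕ ι) (ι ⊕ ι) ℂ :=
    vecMulVec w (star w) + vecMulVec (sg w) (star (sg w)) with hQ
  have hv : ∀ a b c d : ι ⊕ ι → ℂ, vecMulVec a (star b) * vecMulVec c (star d) =
      ip b c • vecMulVec a (star d) := by
    intro a b c d
    rw [vecMulVec_mul_vecMulVec, ip]
    ext x y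
    simp [vecMulVec_apply, Matrix.smul_apply]
    ring
  have hQQ : Q * Q = (N : ℂ) • Q := by
    rw [hQ, Matrix.add_mul, Matrix.mul_add, Matrix.mul_add, hv, hv, hv, hv, hNw, hs1, hs2, hs3]
    simp [smul_add]
  have hQH : Qᴴ = Q := by
    rw [hQ, conjTranspose_add, conjTranspose_vecMulVec, conjTranspose_vecMulVec, star_star,
      star_star]
  set X : Matrix (ι ⊕ ι) (ι ⊕ ι) ℂ := 1 - (2 / (N : ℂ)) • Q with hX
  have hXX : X * X = 1 := by
    rw [hX, Matrix.sub_mul, Matrix.mul_sub, Matrix.mul_sub, Matrix.mul_one, Matrix.one_mul,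
      Matrix.mul_one, Matrix.smul_mul, Matrix.mul_smul, hQQ, smul_smul, smul_smul]
    have : 2 / (N : ℂ) * (2 / (N : ℂ)) * N = 2 / (N : ℂ) + 2 / (N : ℂ) := by
      field_simp; ring
    rw [this, add_smul]
    abel
  have hXH : Xᴴ = X := by
    rw [hX, conjTranspose_sub, conjTranspose_one, conjTranspose_smul, hQH]
    congr 2
    simp
  have hJw : J ι *ᵥ w = - star (sg w) := by
    rw [sg, star_mulVec, star_star, J_transpose, conjTranspose_neg, J_conjT, neg_neg,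
      ← mulVec_transpose, J_transpose, neg_mulVec, neg_neg]
  have hJsw : J ι *ᵥ sg w = star w := by
    rw [sg, mulVec_mulVec, J_transpose, Matrix.mul_neg, J_sq, neg_neg, one_mulVec]
  have hJQ : Qᵀ * J ι = J ι * Q := by
    rw [hQ, transpose_add, transpose_vecMulVec, transpose_vecMulVec, Matrix.add_mul,
      Matrix.mul_add, vecMulVec_mul, vecMulVec_mul, mul_vecMulVec, mul_vecMulVec, hJw, hJsw,
      ← mulVec_transpose, ← mulVec_transpose, J_transpose, neg_mulVec, neg_mulVec, hJw, hJsw,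
      neg_neg]
    ext x y
    simp [vecMulVec_apply]
    ring
  have hXs : IsSp X := by
    refine ⟨mem_unitaryGroup_iff'.2 ?_, ?_⟩
    · rw [star_eq_conjTranspose, hXH, hXX]
    · have : Xᵀ * J ι = J ι * X := by
        rw [hX, transpose_sub, transpose_one, transpose_smul, Matrix.sub_mul, Matrix.mul_sub,
          Matrix.one_mul, Matrix.mul_one, Matrix.smul_mul, Matrix.mul_smul, hJQ]
      rw [this, Matrix.mul_assoc, hXX, Matrix.mul_one]
  refine ⟨X, ⟨hXs, hXX⟩, ?_⟩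
  have hQu : Q *ᵥ u = ip w u • w + ip (sg w) u • sg w := by
    rw [hQ, add_mulVec, vecMulVec_mulVec, vecMulVec_mulVec]
    ext x
    simp [ip, mul_comm]
  have hwu : ip w u = (N : ℂ) / 2 := by
    have e : (N : ℂ) = 2 * ip w u := by
      rw [← hNw, hw, sub_ip, ip_sub, ip_sub, sub_ip]
      linear_combination -h1 - h2
    rw [e]; ring
  have hswu : ip (sg w) u = 0 := by
    rw [hw, sg_sub, sub_ip, ip_sg_left y u, h3]
    have : ip (sg u) u = 0 := by rw [← ip_star, ip_sg_self, star_zero]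
    rw [this]; ring
  rw [hX, sub_mulVec, one_mulVec, smul_mulVec, hQu, hwu, hswu, zero_smul, add_zero, smul_smul]
  have : 2 / (N : ℂ) * ((N : ℂ) / 2) = 1 := by field_simp
  rw [this, one_smul, hw]
  abel

end Q54.SpI
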